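import Mathlib

set_option autoImplicit false

/-!
# Anti-tori in the square complex groups `G_X`

`G_X` acts by affine maps on the total ring of fractions of `A[s]`, where `A = ℤ ⊕ X` is the
trivial square-zero extension: `x_j` is the homothety with ratio `s` and centre `j`, and `a_i`
is the homothety with ratio `(1 - 2s) / (1 - s)` and centre `((1 - s) / s) i`.
-/

open Polynomial

namespace Pool.Agent.Results.MP_216313_al.AntiTorus

/-- The relators `a_i x_j (x_{i+j} a_{i-j})⁻¹`; `Sum.inl i` stands for `a_i` and `Sum.inr j`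
for `x_j`. -/
def rels (X : Type) [AddCommGroup X] : Set (FreeGroup (X ⊕ X)) :=
  Set.range fun ij : X × X =>
    FreeGroup.of (Sum.inl ij.1) * FreeGroup.of (Sum.inr ij.2) *
      (FreeGroup.of (Sum.inr (ij.1 + ij.2)) * FreeGroup.of (Sum.inl (ij.1 - ij.2)))⁻¹

/-- The group `G_X = ⟨a_i, x_j | a_i x_j = x_{i+j} a_{i-j}⟩`. -/
abbrev G (X : Type) [AddCommGroup X] : Type := PresentedGroup (rels X)

/-- The generator `a_i`. -/
def a {X : Type} [AddCommGroup X] (i : X) : G X := PresentedGroup.of (Sum.inl i)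

/-- The generator `x_j`. -/
def x {X : Type} [AddCommGroup X] (j : X) : G X := PresentedGroup.of (Sum.inr j)

section homothety

variable {R : Type} [CommRing R]

/-- The homotheties with centre `c`. -/
def homo (c : R) : Rˣ →* Equiv.Perm R where
  toFun u :=
    { toFun := fun m => (u : R) * (m - c) + c
      invFun := fun m => ((u⁻¹ : Rˣ) : R) * (m - c) + c
      left_inv := fun m => by
        have h : ((u⁻¹ : Rˣ) : R) * (u : R) = 1 := u.inv_mul
        linear_combination (m - c) * h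
      right_inv := fun m => by
        have h : (u : R) * ((u⁻¹ : Rˣ) : R) = 1 := u.mul_inv
        linear_combination (m - c) * h }
  map_one' := by ext m; simp
  map_mul' u v := by ext m; simp [Equiv.Perm.mul_apply]; ring

lemma homo_apply (c : R) (u : Rˣ) (m : R) : homo c u m = (u : R) * (m - c) + c := rfl

/-- The affine representation. -/
def rep {X : Type} [AddCommGroup X] (φ : X →+ R) (α β : Rˣ) (w : R)
    (h1 : w * (1 - α) = 1) (h2 : (α : R) * (1 - β) = 1 - 2 * β) : G X →* Equiv.Perm R :=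
  PresentedGroup.toGroup
    (f := fun g : X ⊕ X => Sum.elim (fun i => homo (w * φ i) α) (fun j => homo (φ j) β) g) (by
      rintro _ ⟨⟨i, j⟩, rfl⟩
      simp only [map_mul, map_inv, FreeGroup.lift_apply_of, Sum.elim_inl, Sum.elim_inr]
      rw [mul_inv_eq_one]
      ext m
      simp only [Equiv.Perm.mul_apply, homo_apply, map_add, map_sub]
      linear_combination (φ i * (1 - β) + φ j * β) * h1 + φ j * h2)

lemma homo_pow_apply (c : R) (u : Rˣ) (n : ℕ) (m : R) :
    (homo c u ^ n) m = (u : R) ^ n * (m - c) + c := by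
  rw [← map_pow, homo_apply, Units.val_pow_eq_pow_val]

/-- If the powers commute then the centres are equal up to zero divisors. -/
lemma rep_commute {X : Type} [AddCommGroup X] (φ : X →+ R) (α β : Rˣ) (w : R)
    (h1 : w * (1 - α) = 1) (h2 : (α : R) * (1 - β) = 1 - 2 * β) (i j : X) (n m : ℕ)
    (h : Commute (a i ^ n) (x j ^ m)) :
    (1 - (α : R) ^ n) * (1 - (β : R) ^ m) * (w * φ i - φ j) = 0 := by
  have h3 : rep φ α β w h1 h2 (a i) = homo (w * φ i) α := by
    simp [rep, a]
  have h4 : rep φ α β w h1 h2 (x j) = homo (φ j) β := by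
    simp [rep, x]
  have h5 := h.map (rep φ α β w h1 h2)
  rw [map_pow, map_pow, h3, h4] at h5
  have h6 := congrArg (fun e : Equiv.Perm R => e 0) h5.eq
  simp only [Equiv.Perm.mul_apply, homo_pow_apply] at h6
  linear_combination h6

end homothety

section poly

variable {A : Type} [CommRing A]

lemma reg_of_eval {f : A[X]} (c : A) (h : IsUnit (f.eval c)) : f ∈ nonZeroDivisors A[X] := by
  rw [Polynomial.mem_nonZeroDivisors_iff]
  intro b hb
  have h1 := congrArg (eval c) hb
  rw [eval_smul, eval_zero, smul_eq_mul] at h1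
  exact (h.mul_left_eq_zero).1 h1

lemma reg_s : (X : A[X]) ∈ nonZeroDivisors A[X] := reg_of_eval 1 (by simp)

lemma reg_one_sub : (1 - X : A[X]) ∈ nonZeroDivisors A[X] := reg_of_eval 0 (by simp)

lemma reg_one_sub_two : (1 - 2 * X : A[X]) ∈ nonZeroDivisors A[X] := reg_of_eval 0 (by simp)

lemma reg_one_sub_pow {m : ℕ} (hm : m ≠ 0) : (1 - X ^ m : A[X]) ∈ nonZeroDivisors A[X] :=
  reg_of_eval 0 (by simp [hm])

lemma reg_diff {n : ℕ} (hn : n ≠ 0) :
    ((1 - X) ^ n - (1 - 2 * X) ^ n : A[X]) ∈ nonZeroDivisors A[X] := by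
  refine reg_of_eval 1 ?_
  have : eval (1 : A) ((1 - X) ^ n - (1 - 2 * X) ^ n) = -((-1) ^ n) := by
    simp [hn]; norm_num
  rw [this]
  exact (IsUnit.pow n isUnit_one.neg).neg

end poly

/-- The natural-power version. -/
lemma nat_version {Y : Type} [AddCommGroup Y] (i j : Y) (n m : ℕ) (hn : n ≠ 0) (hm : m ≠ 0)
    (h : Commute (a i ^ n) (x j ^ m)) : i = 0 ∧ j = 0 := by
  let _ : Module ℤᵐᵒᵖ Y := Module.compHom Y ((RingHom.id ℤ).fromOpposite mul_comm)
  have : IsCentralScalar ℤ Y := ⟨fun _ _ => rfl⟩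
  let A : Type := TrivSqZeroExt ℤ Y
  let Q : Type := FractionRing A[X]
  let ι : A[X] →+* Q := algebraMap A[X] Q
  have hι : Function.Injective ι := IsFractionRing.injective A[X] Q
  have hu : ∀ f ∈ nonZeroDivisors A[X], IsUnit (ι f) := fun f hf =>
    IsLocalization.map_units Q (⟨f, hf⟩ : nonZeroDivisors A[X])
  obtain ⟨us, hus⟩ := hu _ reg_s
  obtain ⟨u1, hu1⟩ := hu _ reg_one_sub
  obtain ⟨u2, hu2⟩ := hu _ reg_one_sub_two
  have e1 : (u1 : Q) = 1 - us := by rw [hu1, hus, map_sub, map_one]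
  have e2 : (u2 : Q) = 1 - 2 * us := by rw [hu2, hus, map_sub, map_one, map_mul, map_ofNat]
  let φ : Y →+ Q := (ι.toAddMonoidHom.comp (C : A →+* A[X]).toAddMonoidHom).comp
    (TrivSqZeroExt.inrHom ℤ Y).toAddMonoidHom
  have hφ : ∀ y, φ y = ι (C (TrivSqZeroExt.inr y)) := fun y => rfl
  have i1 : (u1 : Q) * ((u1⁻¹ : Qˣ) : Q) = 1 := u1.mul_inv
  have is : (us : Q) * ((us⁻¹ : Qˣ) : Q) = 1 := us.mul_inv
  have e3 : (u2 : Q) = u1 - us := by rw [e1, e2]; ring
  have key := rep_commute φ (u2 * u1⁻¹) us ((u1 : Q) * ((us⁻¹ : Qˣ) : Q))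
    (by
      rw [Units.val_mul, e3]
      linear_combination (-((u1 : Q) * ((us⁻¹ : Qˣ) : Q)) + us * ((us⁻¹ : Qˣ) : Q)) * i1 + is)
    (by
      rw [Units.val_mul]
      linear_combination (u2 : Q) * i1 - (u2 : Q) * ((u1⁻¹ : Qˣ) : Q) * e1 + e2) i j n m h
  rw [Units.val_mul, mul_pow] at key
  have i1n : (u1 : Q) ^ n * ((u1⁻¹ : Qˣ) : Q) ^ n = 1 := by rw [← mul_pow, i1, one_pow]
  have key2 : ((u1 : Q) ^ n - (u2 : Q) ^ n) * ((1 - (us : Q) ^ m) *
      ((u1 : Q) * φ i - us * φ j)) = 0 := by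
    have hs : (us : Q) * ((u1 : Q) * ((us⁻¹ : Qˣ) : Q) * φ i - φ j) =
        (u1 : Q) * φ i - us * φ j := by
      linear_combination (u1 : Q) * φ i * is
    have hn' : (u1 : Q) ^ n * (1 - (u2 : Q) ^ n * ((u1⁻¹ : Qˣ) : Q) ^ n) =
        (u1 : Q) ^ n - (u2 : Q) ^ n := by
      linear_combination -(u2 : Q) ^ n * i1n
    rw [← hs, ← hn']
    linear_combination (u1 : Q) ^ n * us * key
  have key3 : ι (((1 - X) ^ n - (1 - 2 * X) ^ n) * ((1 - X ^ m) *
      ((1 - X) * C (TrivSqZeroExt.inr i) - X * C (TrivSqZeroExt.inr j)))) = 0 := by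
    rw [map_mul, map_mul, map_sub, map_sub, map_sub, map_mul, map_mul, map_pow, map_pow, map_pow,
      map_one, ← hu1, ← hu2, ← hus, ← hφ, ← hφ]
    exact key2
  have key4 := (map_eq_zero_iff ι hι).1 key3
  have key5 := (mem_nonZeroDivisors_iff.1 (reg_diff (A := A) hn)).1 _ key4
  have key6 := (mem_nonZeroDivisors_iff.1 (reg_one_sub_pow (A := A) hm)).1 _ key5
  have h0 := congrArg (eval (0 : A)) key6
  have h1 := congrArg (eval (1 : A)) key6
  simp at h0 h1
  exact ⟨TrivSqZeroExt.inr_injective (by simpa using h0),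
    TrivSqZeroExt.inr_injective (by simpa using h1)⟩

/-- For every abelian group `Y` (finite or not) and all `i, j`, not both zero, the elements `a_i`
and `x_j` of `G_Y` generate an anti-torus. -/
theorem result (Y : Type) [AddCommGroup Y] (i j : Y) (hij : (i, j) ≠ (0, 0)) (p q : ℤ)
    (hp : p ≠ 0) (hq : q ≠ 0) : a i ^ p * x j ^ q ≠ x j ^ q * a i ^ p := by
  intro h
  have h1 : Commute (a i ^ p) (x j ^ q) := h
  have h2 : Commute (a i ^ p.natAbs) (x j ^ q) := by
    rcases Int.natAbs_eq p with e | e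
    · rw [e, zpow_natCast] at h1; exact h1
    · rw [e, zpow_neg, zpow_natCast] at h1; exact Commute.inv_left_iff.1 h1
  have h3 : Commute (a i ^ p.natAbs) (x j ^ q.natAbs) := by
    rcases Int.natAbs_eq q with e | e
    · rw [e, zpow_natCast] at h2; exact h2
    · rw [e, zpow_neg, zpow_natCast] at h2; exact Commute.inv_right_iff.1 h2
  obtain ⟨h4, h5⟩ := nat_version i j _ _ (Int.natAbs_ne_zero.2 hp) (Int.natAbs_ne_zero.2 hq) h3
  exact hij (by rw [h4, h5])

end Pool.Agent.Results.MP_216313_al.AntiTorus
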